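import Pool.Agent.Helper373_CM.DegSeq3

/-!
# The number of cards with a given number of edges (MP_ecede9_co)

Call two vertices of `G` of the same degree alike if they have the same number of neighbours of
degree `j` for every `j`, and a degree nonuniform if there are two vertices of this degree which are
not alike. Let `n ≥ 4`, let `G` and `H` have the same set of cards, and suppose that any two
nonuniform degrees `d < d'` of `G` either are separated by an integer which is not a degree of `G`,
or satisfy `d' = d + 1` and neither `d - 1` nor `d' + 1` is a degree of `G`. (This holds for every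
graph without three consecutive degrees.)  Then, for every `e`, the decks of `G` and of `H` have the
same number of cards with `e` edges.
-/

set_option autoImplicit false

namespace Pool.Agent.Results.MP_ecede9_co.CardEdgeCounts

open Pool.Agent.Helper373_CM

theorem result :
    ∀ n : ℕ, 4 ≤ n → ∀ G H : SimpleGraph (Fin n),
      (∀ v : Fin n, ∃ w : Fin n,
        Nonempty (G.induce ({v}ᶜ : Set (Fin n)) ≃g H.induce ({w}ᶜ : Set (Fin n)))) →
      (∀ w : Fin n, ∃ v : Fin n,
        Nonempty (G.induce ({v}ᶜ : Set (Fin n)) ≃g H.induce ({w}ᶜ : Set (Fin n)))) →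
      (∀ x x' y y' : Fin n,
        (G.neighborSet x).ncard = (G.neighborSet x').ncard →
        (G.neighborSet y).ncard = (G.neighborSet y').ncard →
        (G.neighborSet x).ncard < (G.neighborSet y).ncard →
        (∃ j : ℕ, Set.ncard {z : Fin n | G.Adj x z ∧ (G.neighborSet z).ncard = j} ≠
          Set.ncard {z : Fin n | G.Adj x' z ∧ (G.neighborSet z).ncard = j}) →
        (∃ j : ℕ, Set.ncard {z : Fin n | G.Adj y z ∧ (G.neighborSet z).ncard = j} ≠
          Set.ncard {z : Fin n | G.Adj y' z ∧ (G.neighborSet z).ncard = j}) →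
        (∃ g : ℕ, (G.neighborSet x).ncard < g ∧ g < (G.neighborSet y).ncard ∧
          ∀ z : Fin n, (G.neighborSet z).ncard ≠ g) ∨
        ((G.neighborSet y).ncard = (G.neighborSet x).ncard + 1 ∧
          ∀ z : Fin n, (G.neighborSet z).ncard + 1 ≠ (G.neighborSet x).ncard ∧
            (G.neighborSet z).ncard ≠ (G.neighborSet y).ncard + 1)) →
      ∀ e : ℕ,
        Set.ncard {v : Fin n | (G.induce ({v}ᶜ : Set (Fin n))).edgeSet.ncard = e} =
        Set.ncard {v : Fin n | (H.induce ({v}ᶜ : Set (Fin n))).edgeSet.ncard = e} := by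
  intro n hn G H h1 h2 h3 e
  have hne : Nonempty (Fin n) := ⟨⟨0, by omega⟩⟩
  have hd : ∀ x, dg G x = (((G.neighborSet x).ncard : ℕ) : ℤ) := fun x => (deg_ncard G x).symm
  have h1' : ∀ v, ∃ w, CI G H v w := fun v => by
    obtain ⟨w, hw⟩ := h1 v
    exact ⟨w, (ci_iff G H v w).mp hw⟩
  have h2' : ∀ w, ∃ v, CI G H v w := fun w => by
    obtain ⟨v, hv⟩ := h2 w
    exact ⟨v, (ci_iff G H v w).mp hv⟩
  refine edge_count h1' h2' (tot_eq (by simpa using hn) h1' h2') ?_ e
  intro j k hjk hj hk
  obtain ⟨x, x', hx, hx', hj'⟩ := exists_of_not_uni' hj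
  obtain ⟨y, y', hy, hy', hk'⟩ := exists_of_not_uni' hk
  rw [hd] at hx hx' hy hy'
  rcases h3 x x' y y' (by omega) (by omega) (by omega) hj' hk' with ⟨g, hg1, hg2, hg3⟩ | ⟨g1, g2⟩
  · refine Or.inl ⟨g, by omega, by omega, fun z hz => hg3 z ?_⟩
    rw [hd] at hz
    exact_mod_cast hz
  · refine Or.inr ⟨by omega, fun z hz => ?_, fun z hz => ?_⟩
    · rw [hd] at hz
      exact (g2 z).1 (by omega)
    · rw [hd] at hz
      exact (g2 z).2 (by omega)

end Pool.Agent.Results.MP_ecede9_co.CardEdgeCounts
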