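import Pool.Agent.Helper373_CM.Wrap2
import Pool.Agent.Helper373_CM.Equi2

/-!
# Equitable at the non-isolated degrees, no three consecutive degrees (MP_ecede9_co)

Let `n ≥ 4` and let `G` be a graph such that no three consecutive integers are all degrees of `G`.
Suppose that any two vertices of the same degree `d`, where `d - 1` or `d + 1` is also a degree of
`G`, have the same number of neighbours of degree `k`, for every `k`.  Nothing is assumed about the
vertices whose degree is isolated, that is, `d - 1` and `d + 1` are not degrees of `G`.
If `H` has the same set of cards as `G` then every card occurs with the same multiplicity in both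
decks.  There is no restriction on the number of degrees or on the number `m` of isomorphism classes
of cards.

Idea.  A pairing of the indicators of the vertices of degree at least `l` in `G` and in `H` under
an isomorphism of cards shows that `G` and `H` have the same number of vertices
of each degree; here gaps between degrees and pairs of consecutive degrees are handled for all
graphs without three consecutive degrees.  So all labelled copies of `G` and `H` have the same
parameters at the degrees which are not isolated.  Let `X` and `Y` be two such copies which agree
outside `v`.  For each `l` the difference of the indicators of the vertices of degree at least `l`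
is then almost an eigenvector of `X`, and pairing these vectors for different vertices `v` shows
that the neighbourhoods of `v` in `X` and in `Y` differ only in vertices whose degrees are next to
the degree of `v`.  If `G` and `H` are not isomorphic it follows that there is no isolated degree.
Within a pair of consecutive degrees the differences are eigenvectors, no card has three
extensions, and counting labelled copies gives the result.
-/

set_option autoImplicit false

namespace Pool.Agent.Results.MP_ecede9_co.EquitableUpToIsolatedDegrees

open Pool.Agent.Helper373_CM

theorem result :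
    ∀ n : ℕ, 4 ≤ n → ∀ G H : SimpleGraph (Fin n),
      (∀ v : Fin n, ∃ w : Fin n,
        Nonempty (G.induce ({v}ᶜ : Set (Fin n)) ≃g H.induce ({w}ᶜ : Set (Fin n)))) →
      (∀ w : Fin n, ∃ v : Fin n,
        Nonempty (G.induce ({v}ᶜ : Set (Fin n)) ≃g H.induce ({w}ᶜ : Set (Fin n)))) →
      (∀ u v : Fin n, (G.neighborSet u).ncard = (G.neighborSet v).ncard →
          (∃ x : Fin n, (G.neighborSet x).ncard + 1 = (G.neighborSet u).ncard ∨
            (G.neighborSet x).ncard = (G.neighborSet u).ncard + 1) → ∀ k : ℕ,
          Set.ncard {y : Fin n | G.Adj u y ∧ (G.neighborSet y).ncard = k} =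
          Set.ncard {y : Fin n | G.Adj v y ∧ (G.neighborSet y).ncard = k}) →
      (¬ ∃ x y z : Fin n, (G.neighborSet y).ncard = (G.neighborSet x).ncard + 1 ∧
          (G.neighborSet z).ncard = (G.neighborSet x).ncard + 2) →
      ∀ v : Fin n,
        Set.ncard {u : Fin n |
          Nonempty (G.induce ({u}ᶜ : Set (Fin n)) ≃g G.induce ({v}ᶜ : Set (Fin n)))} =
        Set.ncard {u : Fin n |
          Nonempty (H.induce ({u}ᶜ : Set (Fin n)) ≃g G.induce ({v}ᶜ : Set (Fin n)))} := by
  intro n hn G H h1 h2 h3 h4 v
  have : Nonempty (Fin n) := ⟨v⟩
  have hd : ∀ x, dg G x = (((G.neighborSet x).ncard : ℕ) : ℤ) := fun x => (deg_ncard G x).symm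
  refine wrap hn G H h1 h2 (fun g1 g2 g3 v => ?_) v
  refine cnt_eq_of_equitable2 g1 g2 g3 (fun x y hxy hx l => ?_) (fun x y z hy hz => h4 ?_) v
  · refine nbg_eq_of_ncard G x y
      (h3 x y (by rw [hd x, hd y] at hxy; exact_mod_cast hxy) ?_) l
    rcases hx with ⟨z, hz⟩ | ⟨z, hz⟩
    · refine ⟨z, Or.inl ?_⟩
      rw [hd z, hd x] at hz
      omega
    · refine ⟨z, Or.inr ?_⟩
      rw [hd z, hd x] at hz
      omega
  · rw [hd x, hd y] at hy
    rw [hd x, hd z] at hz
    exact ⟨x, y, z, by exact_mod_cast hy, by exact_mod_cast hz⟩

end Pool.Agent.Results.MP_ecede9_co.EquitableUpToIsolatedDegrees
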