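import Pool.Agent.Helper373_CM.DegSeq2

/-!
# At most one nonuniform degree in each run of consecutive degrees (MP_ecede9_co)

Call two vertices of `G` of the same degree alike if they have the same number of neighbours of
degree `j` for every `j`, and a degree nonuniform if there are two vertices of this degree which are
not alike. Let `n ≥ 4`, let `G` and `H` have the same set of cards, and suppose that any two
different nonuniform degrees of `G` are separated by an integer which is not a degree of `G`.

Then `G - v` occurs equally often in both decks for every vertex `v` such that `G - v` has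
coefficient zero in every affine dependence between the degree sequences of the different cards with
as many edges as `G - v`. The affine dependences are the rational functions `a` on the vertices
with `a u = a w` when `G - u ≅ G - w`, with `a u = 0` when `G - u` and `G - v` have different
numbers of edges, with sum zero, and such that the sum of `a u` times the number of vertices of
degree `k` in `G - u` is zero for every `k`.

Idea. Let `S k` be the sum of `max (deg x - k + 1) 0` over all vertices and let
`Ψ k = S k (G) - S k (H)`. A pairing under an isomorphism of cards gives `Ψ l + Ψ (l + 1) = 0` when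
the degrees `l - 1` and `l` are uniform, and `Ψ l = Ψ (l + 1) = 0` when one of them does not occur.
Then at most one value in each run is not zero, and counting edges between two degree classes
excludes it. In the same way the numbers of edges between the degree classes are determined.
-/

set_option autoImplicit false

namespace Pool.Agent.Results.MP_ecede9_co.OneNonuniformDegreePerRun

open Pool.Agent.Helper373_CM

theorem result :
    ∀ n : ℕ, 4 ≤ n → ∀ G H : SimpleGraph (Fin n),
      (∀ v : Fin n, ∃ w : Fin n,
        Nonempty (G.induce ({v}ᶜ : Set (Fin n)) ≃g H.induce ({w}ᶜ : Set (Fin n)))) →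
      (∀ w : Fin n, ∃ v : Fin n,
        Nonempty (G.induce ({v}ᶜ : Set (Fin n)) ≃g H.induce ({w}ᶜ : Set (Fin n)))) →
      (∀ x x' y y' : Fin n,
        (G.neighborSet x).ncard = (G.neighborSet x').ncard →
        (G.neighborSet y).ncard = (G.neighborSet y').ncard →
        (G.neighborSet x).ncard < (G.neighborSet y).ncard →
        (∃ j : ℕ, Set.ncard {z : Fin n | G.Adj x z ∧ (G.neighborSet z).ncard = j} ≠
          Set.ncard {z : Fin n | G.Adj x' z ∧ (G.neighborSet z).ncard = j}) →
        (∃ j : ℕ, Set.ncard {z : Fin n | G.Adj y z ∧ (G.neighborSet z).ncard = j} ≠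
          Set.ncard {z : Fin n | G.Adj y' z ∧ (G.neighborSet z).ncard = j}) →
        ∃ g : ℕ, (G.neighborSet x).ncard < g ∧ g < (G.neighborSet y).ncard ∧
          ∀ z : Fin n, (G.neighborSet z).ncard ≠ g) →
      ∀ v : Fin n,
        (∀ a : Fin n → ℚ,
          (∀ u w : Fin n,
            Nonempty (G.induce ({u}ᶜ : Set (Fin n)) ≃g G.induce ({w}ᶜ : Set (Fin n))) →
            a u = a w) →
          (∀ u : Fin n, (G.induce ({u}ᶜ : Set (Fin n))).edgeSet.ncard ≠
            (G.induce ({v}ᶜ : Set (Fin n))).edgeSet.ncard → a u = 0) →
          ∑ u, a u = 0 →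
          (∀ k : ℕ, ∑ u, a u * ((Set.ncard {x : ({u}ᶜ : Set (Fin n)) |
            ((G.induce ({u}ᶜ : Set (Fin n))).neighborSet x).ncard = k} : ℕ) : ℚ) = 0) →
          a v = 0) →
        Set.ncard {u : Fin n |
          Nonempty (G.induce ({u}ᶜ : Set (Fin n)) ≃g G.induce ({v}ᶜ : Set (Fin n)))} =
        Set.ncard {u : Fin n |
          Nonempty (H.induce ({u}ᶜ : Set (Fin n)) ≃g G.induce ({v}ᶜ : Set (Fin n)))} := by
  intro n hn G H h1 h2 h3 v haff
  have : Nonempty (Fin n) := ⟨v⟩
  have hd : ∀ x, dg G x = (((G.neighborSet x).ncard : ℕ) : ℤ) := fun x => (deg_ncard G x).symm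
  have key : (∀ v, ∃ w, CI G H v w) → (∀ w, ∃ v, CI G H v w) → tot G = tot H →
      cnt G G v = cnt H G v := by
    intro g1 g2 g3
    refine cnt_eq_of_runs g1 g2 g3 ?_ v (fun a ha1 ha2 ha3 ha4 => ?_)
    · intro j k hjk hj hk
      obtain ⟨x, x', hx, hx', hj'⟩ := exists_of_not_uni' hj
      obtain ⟨y, y', hy, hy', hk'⟩ := exists_of_not_uni' hk
      rw [hd] at hx hx' hy hy'
      obtain ⟨g, hg1, hg2, hg3⟩ := h3 x x' y y' (by omega) (by omega) (by omega) hj' hk'
      refine ⟨g, by omega, by omega, fun z hz => hg3 z ?_⟩
      rw [hd] at hz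
      exact_mod_cast hz
    · refine haff a (fun u w huw => ha1 u w ((ci_iff _ _ _ _).mp huw))
        (fun u hu => ha2 u (fun h => hu ?_)) ha3 (fun k => ?_)
      · have e1 := card_edges G u
        have e2 := card_edges G v
        rw [h] at e1
        omega
      · rw [← ha4 (k : ℤ)]
        refine Finset.sum_congr rfl (fun u _ => ?_)
        rw [← card_deg_ncard]
        norm_cast
  have h1' : ∀ v, ∃ w, CI G H v w := fun v => by
    obtain ⟨w, hw⟩ := h1 v
    exact ⟨w, (ci_iff G H v w).mp hw⟩
  have h2' : ∀ w, ∃ v, CI G H v w := fun w => by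
    obtain ⟨v, hv⟩ := h2 w
    exact ⟨v, (ci_iff G H v w).mp hv⟩
  have h4 := key h1' h2' (tot_eq (by simpa using hn) h1' h2')
  have h5 : ((Set.ncard {u : Fin n |
          Nonempty (G.induce ({u}ᶜ : Set (Fin n)) ≃g G.induce ({v}ᶜ : Set (Fin n)))} : ℕ) : ℤ) =
        ((Set.ncard {u : Fin n |
          Nonempty (H.induce ({u}ᶜ : Set (Fin n)) ≃g G.induce ({v}ᶜ : Set (Fin n)))} : ℕ) : ℤ) := by
    rw [ncard_ind, ncard_ind]
    simp only [ci_iff]
    exact h4
  exact_mod_cast h5

end Pool.Agent.Results.MP_ecede9_co.OneNonuniformDegreePerRun
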