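import Pool.Agent.Helper373_CM.Wrap

/-!
# At most three isomorphism classes of cards (MP_ecede9_co)

For `n ≥ 4`, if `G` and `H` have the same set of cards and this set has at most three elements, then
every card occurs with the same multiplicity in both decks.  The case which was open is that of
three cards whose numbers of edges differ by at most one.

Idea.  The number of edges is the same, hence so are the degrees.  If the three cards have
different numbers of edges, triangles with one vertex in each degree class are counted from each
of the three classes.  Otherwise the degrees are `d`, `d + 1`, and if the multiplicities differ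
then the partition by degrees is equitable.  In that case two extensions of a common card `K` by
neighbourhoods `N`, `N'` give an eigenvector `1_N - 1_N'` of `K`, and pairing these eigenvectors
for the various cards shows that no card has three extensions.  Counting labelled copies gives the
result.
-/

set_option autoImplicit false

namespace Pool.Agent.Results.MP_ecede9_co.ThreeCardTypes

open Pool.Agent.Helper373_CM

theorem result :
    ∀ n : ℕ, 4 ≤ n → ∀ G H : SimpleGraph (Fin n),
      (∀ v : Fin n, ∃ w : Fin n,
        Nonempty (G.induce ({v}ᶜ : Set (Fin n)) ≃g H.induce ({w}ᶜ : Set (Fin n)))) →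
      (∀ w : Fin n, ∃ v : Fin n,
        Nonempty (G.induce ({v}ᶜ : Set (Fin n)) ≃g H.induce ({w}ᶜ : Set (Fin n)))) →
      (∃ a b c : Fin n, ∀ v : Fin n,
        Nonempty (G.induce ({v}ᶜ : Set (Fin n)) ≃g G.induce ({a}ᶜ : Set (Fin n))) ∨
        Nonempty (G.induce ({v}ᶜ : Set (Fin n)) ≃g G.induce ({b}ᶜ : Set (Fin n))) ∨
        Nonempty (G.induce ({v}ᶜ : Set (Fin n)) ≃g G.induce ({c}ᶜ : Set (Fin n)))) →
      ∀ v : Fin n,
        Set.ncard {u : Fin n |
          Nonempty (G.induce ({u}ᶜ : Set (Fin n)) ≃g G.induce ({v}ᶜ : Set (Fin n)))} =
        Set.ncard {u : Fin n |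
          Nonempty (H.induce ({u}ᶜ : Set (Fin n)) ≃g G.induce ({v}ᶜ : Set (Fin n)))} := by
  intro n hn G H h1 h2 h3 v
  haveI : Nonempty (Fin n) := ⟨v⟩
  refine wrap hn G H h1 h2 (fun g1 g2 g3 v => ?_) v
  obtain ⟨a, b, c, habc⟩ := h3
  refine cnt_eq_three g1 g2 g3 a b c (fun x => ?_) v
  rcases habc x with h | h | h
  · exact Or.inl ((ci_iff _ _ _ _).mp h)
  · exact Or.inr (Or.inl ((ci_iff _ _ _ _).mp h))
  · exact Or.inr (Or.inr ((ci_iff _ _ _ _).mp h))

end Pool.Agent.Results.MP_ecede9_co.ThreeCardTypes
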